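import Mathlib
import Pool.Agent.H62.Ind.Final

set_option autoImplicit false

namespace Pool.Agent.Results.MP_a46c6f_co.Decomposition

open SimpleGraph Pool.Agent.H5.Goddyn Pool.Agent.H98.TC Pool.Agent.H64.Pent

/-- **Main theorem.** Let `G` be a permutation graph with perfect matching `M` and circuits `C₁`,
`C₂`, let `w` be `2` on `M` and `1` off `M`, and let `(G, w)` be a critical contra pair. Then
`(G, w)` is isomorphic to `(P₁₀, w₁₀)`, or `w = w₁ + w₂` with two admissible eulerian weights `w₁`,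
`w₂` neither of which has a faithful circuit cover. -/
theorem result {V : Type*} [Finite V] (G : SimpleGraph V) (M C₁ C₂ : G.Subgraph)
    (h : IsPermutationGraph G M C₁ C₂) (hcrit : IsCriticalContraPair G (wt M)) :
    IsPetersenPair G M ∨ ∃ w₁ w₂ : Sym2 V → ℕ, (∀ e ∈ G.edgeSet, wt M e = w₁ e + w₂ e) ∧
      Eulerian (support G w₁) w₁ ∧ Bridgeless (support G w₁) ∧ ¬ HasFaithfulCircuitCover G w₁ ∧
      Eulerian (support G w₂) w₂ ∧ Bridgeless (support G w₂) ∧ ¬ HasFaithfulCircuitCover G w₂ :=
  Pool.Agent.H62.Ind.main G M C₁ C₂ h hcrit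

end Pool.Agent.Results.MP_a46c6f_co.Decomposition
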