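import Mathlib
import Pool.Agent.H64.Pent.Final

set_option autoImplicit false

namespace Pool.Agent.Results.MP_a46c6f_co.GirthFive

open SimpleGraph Pool.Agent.H5.Goddyn Pool.Agent.H64.Pent

/-- **Main theorem.** Let `G` be a permutation graph with perfect matching `M` and circuits `C₁`,
`C₂`, let `w` be `2` on `M` and `1` off `M`, and let `(G, w)` be a critical contra pair. If `G` has a
circuit of length at most `5`, then `(G, w)` is isomorphic to `(P₁₀, w₁₀)`. -/
theorem result {V : Type*} [Finite V] (G : SimpleGraph V) (M C₁ C₂ : G.Subgraph)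
    (h : IsPermutationGraph G M C₁ C₂) (hcrit : IsCriticalContraPair G (wt M))
    (hshort : ∃ (v : V) (c : G.Walk v v), c.IsCycle ∧ c.length ≤ 5) : IsPetersenPair G M :=
  main G M C₁ C₂ h hcrit hshort

end Pool.Agent.Results.MP_a46c6f_co.GirthFive
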