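import Mathlib
import Pool.Agent.H5.Goddyn.Final

namespace Pool.Agent.H62.Kept.OddTripartitions

open SimpleGraph Pool.Agent.H5.Goddyn

/-- **Main theorem.** Let `G` be a permutation graph with perfect matching `M` and circuits `C₁`,
`C₂`, let `w` be `2` on `M` and `1` off `M`, and suppose that `(G, w)` has no faithful circuit
cover. Then for all cyclic numberings `x` of `C₁` and `y` of `C₂`, where `M` joins `x i` to
`y (π i)`: among the colourings of `M` with three colours in which every colour is used an odd
number of times, exactly as many have an even number of inversions of `π` between edges of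
different colours as have an odd number. -/
theorem result {V : Type*} [Finite V] (G : SimpleGraph V) (M C₁ C₂ : G.Subgraph)
    (h : IsPermutationGraph G M C₁ C₂) (hno : ¬ HasFaithfulCircuitCover G (wt M))
    (n : ℕ) [NeZero n] (x y : Fin n → V) (π : Fin n → Fin n)
    (hx : IsCyclicNumbering C₁ x) (hy : IsCyclicNumbering C₂ y) (hπ : ∀ i, M.Adj (x i) (y (π i))) :
    (Finset.univ.filter (fun κ : Fin n → Fin 3 =>
        OddClasses κ ∧ Even (mixedInversions π κ).card)).card =
      (Finset.univ.filter (fun κ : Fin n → Fin 3 =>
        OddClasses κ ∧ Odd (mixedInversions π κ).card)).card :=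
  (combined G M C₁ C₂ h hno n x y π hx hy hπ).2.1

end Pool.Agent.H62.Kept.OddTripartitions
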