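import Mathlib
import Pool.Agent.H98.TC.Asm

/-!
In a critical contra pair on a permutation graph the deletion of any edge of the perfect matching
leaves a pair with exactly two faithful circuit covers.
-/

set_option autoImplicit false

namespace Pool.Agent.Results.MP_a46c6f_co.TwoCovers

open SimpleGraph Pool.Agent.H5.Goddyn Pool.Agent.H98.TC

/-- **Main theorem.** Let `G` be a permutation graph with perfect matching `M` and circuits `C₁`,
`C₂`, let `w` be `2` on `M` and `1` off `M`, and let `(G, w)` be a critical contra pair: it has no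
faithful circuit cover and no removable circuit. Then for every edge `xy` of `M` the pair
`(G - xy, w)` has exactly two faithful circuit covers, one with an odd and one with an even number of
members, and each of them is a chain from `x` to `y`: its members can be numbered `D 0, ..., D m`
with `m ≥ 1` and without repetition such that `x` is in `D 0`, `y` is in `D m`, and `D i` and `D j`
with `i < j` have a common vertex if and only if `j = i + 1`. -/
theorem result {V : Type*} [Finite V] (G : SimpleGraph V) (M C₁ C₂ : G.Subgraph)
    (h : IsPermutationGraph G M C₁ C₂) (hno : ¬ HasFaithfulCircuitCover G (wt M))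
    (hrem : ∀ C : G.Subgraph, ¬ Removable G (wt M) C) (x y : V) (hxy : M.Adj x y) :
    {F : Set (del G x y).Subgraph | IsFCC (del G x y) (wt M) F}.ncard = 2 ∧
    (∃ F : Set (del G x y).Subgraph, IsFCC (del G x y) (wt M) F ∧ Odd F.ncard) ∧
    (∃ F : Set (del G x y).Subgraph, IsFCC (del G x y) (wt M) F ∧ Even F.ncard) ∧
    ∀ F : Set (del G x y).Subgraph, IsFCC (del G x y) (wt M) F →
      ∃ (m : ℕ) (D : ℕ → (del G x y).Subgraph), 1 ≤ m ∧ Set.InjOn D {i | i ≤ m} ∧
        F = D '' {i | i ≤ m} ∧ x ∈ (D 0).verts ∧ y ∈ (D m).verts ∧
        ∀ i ≤ m, ∀ j ≤ m, i < j → (¬ Disjoint (D i).verts (D j).verts ↔ j = i + 1) :=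
  main' G M C₁ C₂ h hno hrem x y hxy

end Pool.Agent.Results.MP_a46c6f_co.TwoCovers
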